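import Pool.Agent.Lib.MP_25863d_co.Main

/-!
MP_25863d_co: graphs with `Ω(k n^(3/2))` triangles and at most `k^t n^(3/2)` copies of `K_{2,t}`, for `k` of the order
`n^(1/(2m))`, for every `m` up to about `t²/16` (`m` even) or `t²/64` (all `m`).
-/

set_option autoImplicit false

namespace Pool.Agent.Results.MP_25863d_co.ManyTriangles

/-- For every `t` and `A ≥ 1` there is `c > 0` such that for all `m ≥ 2` with `m ≤ s²`, where `4 s ≤ t + 5` and `m` is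
even, or `8 s ≤ t + 11`, and for all `n ≥ 3` and all real `k ≥ 1` with `n^(1/(2m)) / A ≤ k ≤ A n^(1/(2m))` there is a graph
with `n` vertices, at least `c k n^(3/2)` triangles and at most `k^t n^(3/2)` copies of `K_{2,t}`. -/
theorem result (t : ℕ) (A : ℝ) (hA : 1 ≤ A) : ∃ c : ℝ, 0 < c ∧ ∀ m s : ℕ, 2 ≤ m → m ≤ s ^ 2 →
    (Even m ∧ 4 * s ≤ t + 5) ∨ 8 * s ≤ t + 11 → ∀ (n : ℕ) (k : ℝ), 3 ≤ n → 1 ≤ k →
    (n : ℝ) ^ (1 / (2 * m) : ℝ) ≤ A * k → k ≤ A * (n : ℝ) ^ (1 / (2 * m) : ℝ) →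
    ∃ G : SimpleGraph (Fin n),
      c * k * (n : ℝ) ^ (3 / 2 : ℝ) ≤ G.copyCount (⊤ : SimpleGraph (Fin 3)) ∧
      (G.copyCount (completeBipartiteGraph (Fin 2) (Fin t)) : ℝ) ≤ k ^ t * (n : ℝ) ^ (3 / 2 : ℝ) :=
  Pool.Agent.Lib.MP_25863d_co.main t A hA

end Pool.Agent.Results.MP_25863d_co.ManyTriangles
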